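import Mathlib

/-!
# Ideals of secant varieties of graph curves: definitions (MP_6429ad_ag)

Projective varieties in `P^(n-1)` are given by their affine cones, sets of vectors `Fin n → K`.
-/

set_option autoImplicit false

namespace Pool.Agent.E8helper64.GC

open MvPolynomial Filter

section varieties

variable {K : Type*} [Field K] {n : ℕ}

/-- The ideal of the polynomials which vanish at every point of `Y`. -/
def vI (Y : Set (Fin n → K)) : Ideal (MvPolynomial (Fin n) K) where
  carrier := {p | ∀ x ∈ Y, eval x p = 0}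
  zero_mem' := fun x _ => map_zero _
  add_mem' := fun {p q} hp hq x hx => by rw [map_add, hp x hx, hq x hx, add_zero]
  smul_mem' := fun p q hq x hx => by rw [smul_eq_mul, map_mul, hq x hx, mul_zero]

/-- The Zariski closure of `Y`. -/
def zcl (Y : Set (Fin n → K)) : Set (Fin n → K) := {x | ∀ p ∈ vI Y, eval x p = 0}

/-- The Hilbert function of `J`: the dimension of the part of degree `t` of `K[x_0, …, x_(n-1)] / J`. -/
noncomputable def hf (J : Ideal (MvPolynomial (Fin n) K)) (t : ℕ) : ℕ :=
  Module.finrank K (homogeneousSubmodule (Fin n) K t ⧸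
    (J.restrictScalars K).comap (homogeneousSubmodule (Fin n) K t).subtype)

/-- The linear space `Λ` meets the projective variety with the cone `X` in a zero-dimensional scheme
of length at least `m ≥ 1`: the Hilbert function of the intersection, the scheme defined by the ideal
`I(X) + I(Λ)`, is equal to a constant at least `m` in all large degrees. -/
def Meets (X : Set (Fin n → K)) (Λ : Submodule K (Fin n → K)) (m : ℕ) : Prop :=
  ∃ ℓ : ℕ, m ≤ ℓ ∧ ∀ᶠ t in atTop, hf (vI X ⊔ vI (Λ : Set (Fin n → K))) t = ℓ

/-- The cone over the union of the `k`-planes (vector spaces of dimension `k + 1`) which meet `X` in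
a zero-dimensional scheme of length at least `k + 1`. -/
def Sec (X : Set (Fin n → K)) (k : ℕ) : Set (Fin n → K) :=
  {x | ∃ Λ : Submodule K (Fin n → K), Module.finrank K Λ = k + 1 ∧ Meets X Λ (k + 1) ∧ x ∈ Λ}

/-- The (cone over the) secant variety `Σ_k(X)`: the Zariski closure of the union of these `k`-planes. -/
def Sig (X : Set (Fin n → K)) (k : ℕ) : Set (Fin n → K) := zcl (Sec X k)

/-- A product of linear forms. -/
def ProdLin (p : MvPolynomial (Fin n) K) : Prop :=
  ∃ s : Multiset (MvPolynomial (Fin n) K), (∀ l ∈ s, l.IsHomogeneous 1) ∧ p = s.prod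

/-- The ideal has a generating set consisting of products of linear forms. -/
def GenByProds (I : Ideal (MvPolynomial (Fin n) K)) : Prop :=
  ∃ T : Set (MvPolynomial (Fin n) K), (∀ p ∈ T, ProdLin p) ∧ I = Ideal.span T

end varieties

section graphs

variable {d : ℕ}

/-- The degree of a vertex. -/
noncomputable def dg (G : SimpleGraph (Fin d)) (v : Fin d) : ℕ := (G.neighborSet v).ncard

/-- The conditions on the graph: connected, triangle-free, of maximum degree at most `3` with some
vertex of degree less than `3`, and every path joining two distinct vertices of degree `3` has at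
least `3` edges. -/
structure GraphOK (G : SimpleGraph (Fin d)) : Prop where
  connected : G.Connected
  triangleFree : G.CliqueFree 3
  degree_le : ∀ v, dg G v ≤ 3
  degree_lt : ∃ v, dg G v < 3
  far : ∀ u v, u ≠ v → dg G u = 3 → dg G v = 3 → ∀ p : G.Walk u v, p.IsPath → 3 ≤ p.length

/-- The edges of the graph with a loop attached to every vertex of degree `1`. -/
def tE (G : SimpleGraph (Fin d)) : Set (Sym2 (Fin d)) :=
  {e | e ∈ G.edgeSet ∨ ∃ v, e = s(v, v) ∧ dg G v = 1}

/-- The labels: `one i` is `e_i` and `dif j k` is `e_j - e_k`. -/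
inductive Lb (n : ℕ)
  | one (i : Fin n)
  | dif (j k : Fin n)

/-- The labellings: the three edges at a vertex of degree `3` have labels `e_j`, `e_k`, `e_j - e_k`
with `j ≠ k`, each remaining edge has a label `e_i`, and the indices of the labels `e_i` of
different edges are different. -/
structure Labelling (G : SimpleGraph (Fin d)) {n : ℕ} (lab : Sym2 (Fin d) → Lb n) : Prop where
  three : ∀ v, dg G v = 3 → ∃ a b c : Fin d, G.neighborSet v = {a, b, c} ∧ a ≠ b ∧ a ≠ c ∧ b ≠ c ∧
    ∃ j k : Fin n, j ≠ k ∧ lab s(v, a) = .one j ∧ lab s(v, b) = .one k ∧ lab s(v, c) = .dif j k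
  rest : ∀ e ∈ tE G, (∀ v ∈ e, dg G v ≠ 3) → ∃ i, lab e = .one i
  inj : ∀ e ∈ tE G, ∀ e' ∈ tE G, ∀ i, lab e = .one i → lab e' = .one i → e = e'

/-- The index `i` occurs in the label of an edge at `v`. -/
def Occ (G : SimpleGraph (Fin d)) {n : ℕ} (lab : Sym2 (Fin d) → Lb n) (v : Fin d) (i : Fin n) : Prop :=
  ∃ e ∈ tE G, v ∈ e ∧ (lab e = .one i ∨ (∃ j, lab e = .dif i j) ∨ ∃ j, lab e = .dif j i)

variable (K : Type*) [Field K]

/-- The line `L_v`: all the `x_i` vanish for which `i` does not occur at `v`, and if `v` is not of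
degree `3` and an edge at `v` has the label `e_j - e_k`, then `x_j - x_k` vanishes. -/
def line (G : SimpleGraph (Fin d)) {n : ℕ} (lab : Sym2 (Fin d) → Lb n) (v : Fin d) :
    Submodule K (Fin n → K) where
  carrier := {x | (∀ i, ¬ Occ G lab v i → x i = 0) ∧
    (dg G v ≠ 3 → ∀ e ∈ tE G, v ∈ e → ∀ j k, lab e = .dif j k → x j - x k = 0)}
  zero_mem' := ⟨fun _ _ => rfl, fun _ _ _ _ _ _ _ => by simp⟩
  add_mem' := by
    rintro x y ⟨h1, h2⟩ ⟨h3, h4⟩
    refine ⟨fun i hi => ?_, fun h e he hv j k hl => ?_⟩
    · rw [Pi.add_apply, h1 i hi, h3 i hi, add_zero]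
    · have e1 := h2 h e he hv j k hl
      have e2 := h4 h e he hv j k hl
      rw [Pi.add_apply, Pi.add_apply, show x j + y j - (x k + y k) = (x j - x k) + (y j - y k) by ring,
        e1, e2, add_zero]
  smul_mem' := by
    rintro c x ⟨h1, h2⟩
    refine ⟨fun i hi => ?_, fun h e he hv j k hl => ?_⟩
    · rw [Pi.smul_apply, h1 i hi, smul_zero]
    · have e1 := h2 h e he hv j k hl
      rw [Pi.smul_apply, Pi.smul_apply, ← smul_sub, e1, smul_zero]

/-- The graph curve `C_G`: the union of the lines. -/
def curve (G : SimpleGraph (Fin d)) {n : ℕ} (lab : Sym2 (Fin d) → Lb n) : Set (Fin n → K) :=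
  {x | ∃ v, x ∈ line K G lab v}

end graphs

end Pool.Agent.E8helper64.GC
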