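import Pool.Agent.E8helper64.GC.StepA

/-!
Project GC: adding a line.
-/

set_option autoImplicit false

namespace Pool.Agent.E8helper64.GC

open MvPolynomial Filter

universe u

section step

variable {K : Type u} [Field K] {n : ℕ} {p q : Fin n → K}

/-- the restrictions of the forms of degree `t` in the ideal of `Y` -/
noncomputable def RM (p q : Fin n → K) (Y : Set (Fin n → K)) (t : ℕ) : Submodule K (MvPolynomial (Fin 2) K) :=
  (Ht Y t).map (rho p q).toLinearMap

lemma mem_RM {Y : Set (Fin n → K)} {t : ℕ} {g : MvPolynomial (Fin 2) K} :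
    g ∈ RM p q Y t ↔ ∃ G, (G ∈ vI Y ∧ G.IsHomogeneous t) ∧ rho p q G = g := Iff.rfl

lemma RM_mul {Y Z : Set (Fin n → K)} {s t : ℕ} {g h : MvPolynomial (Fin 2) K} (hg : g ∈ RM p q Y s)
    (hh : h ∈ RM p q Z t) : g * h ∈ RM p q (Y ∪ Z) (s + t) := by
  obtain ⟨G, ⟨hG1, hG2⟩, rfl⟩ := hg
  obtain ⟨H, ⟨hH1, hH2⟩, rfl⟩ := hh
  refine ⟨G * H, ⟨?_, hG2.mul hH2⟩, ?_⟩
  · intro x hx
    rw [map_mul]
    rcases hx with hx | hx
    · rw [hG1 x hx, zero_mul]
    · rw [hH1 x hx, mul_zero]
  · exact map_mul (rho p q) G H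

lemma RM_congr {Y Z : Set (Fin n → K)} {s t : ℕ} {g h : MvPolynomial (Fin 2) K} (hg : g ∈ RM p q Y s)
    (h1 : Y = Z) (h2 : s = t) (h3 : g = h) : h ∈ RM p q Z t := by
  subst h1 h2 h3
  exact hg

/-- a functional gives a linear form -/
lemma RM_lf {Y : Set (Fin n → K)} (f : (Fin n → K) →ₗ[K] K) (hf : ∀ x ∈ Y, f x = 0) :
    C (f p) * X 0 + C (f q) * X 1 ∈ RM p q Y 1 :=
  ⟨lf f, ⟨fun x hx => by rw [eval_lf, hf x hx], lf_hom f⟩, rho_lf p q f⟩

lemma exists_fun {M : Submodule K (Fin n → K)} {v : Fin n → K} (hv : v ∉ M) :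
    ∃ f : (Fin n → K) →ₗ[K] K, f v = 1 ∧ ∀ x ∈ M, f x = 0 := by
  obtain ⟨f, h1, h2⟩ := Submodule.exists_le_ker_of_notMem hv
  refine ⟨(f v)⁻¹ • f, ?_, fun x hx => ?_⟩
  · rw [LinearMap.smul_apply, smul_eq_mul, inv_mul_cancel₀ h1]
  · have := h2 hx
    rw [LinearMap.mem_ker] at this
    rw [LinearMap.smul_apply, this, smul_zero]

lemma RM_X0 {Y : Submodule K (Fin n → K)} (hY : p ∉ Y ⊔ Submodule.span K {q}) :
    X 0 ∈ RM p q (Y : Set (Fin n → K)) 1 := by
  obtain ⟨f, h1, h2⟩ := exists_fun hY
  have h3 : f q = 0 := h2 q (Submodule.mem_sup_right (Submodule.mem_span_singleton_self q))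
  refine RM_congr (RM_lf (p := p) (q := q) f (fun x hx => h2 x (Submodule.mem_sup_left hx))) rfl rfl ?_
  rw [h1, h3, map_one, map_zero, one_mul, zero_mul, add_zero]

lemma RM_X1 {Y : Submodule K (Fin n → K)} (hY : q ∉ Y ⊔ Submodule.span K {p}) :
    X 1 ∈ RM p q (Y : Set (Fin n → K)) 1 := by
  obtain ⟨f, h1, h2⟩ := exists_fun hY
  have h3 : f p = 0 := h2 p (Submodule.mem_sup_right (Submodule.mem_span_singleton_self p))
  refine RM_congr (RM_lf (p := p) (q := q) f (fun x hx => h2 x (Submodule.mem_sup_left hx))) rfl rfl ?_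
  rw [h1, h3, map_one, map_zero, one_mul, zero_mul, zero_add]

variable {L Λ : Submodule K (Fin n → K)} {M : Submodule K (Fin n → K)}

lemma p_mem (hL : L = Submodule.span K {p, q}) : p ∈ L := by
  rw [hL]; exact Submodule.subset_span (by simp)

lemma q_mem (hL : L = Submodule.span K {p, q}) : q ∈ L := by
  rw [hL]; exact Submodule.subset_span (by simp)

lemma p_notMem (hi : LinearIndependent K ![p, q]) (hL : L = Submodule.span K {p, q})
    (hM : M ⊓ L ≤ Submodule.span K {q}) : p ∉ M ⊔ Submodule.span K {q} := by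
  intro h
  obtain ⟨m, hm, y, hy, hmy⟩ := Submodule.mem_sup.1 h
  obtain ⟨c, rfl⟩ := Submodule.mem_span_singleton.1 hy
  have h1 : m = p - c • q := by rw [← hmy]; abel
  have h2 : m ∈ M ⊓ L := ⟨hm, by
    rw [h1]
    exact sub_mem (p_mem hL) (Submodule.smul_mem _ _ (q_mem hL))⟩
  obtain ⟨c', hc'⟩ := Submodule.mem_span_singleton.1 (hM h2)
  rw [LinearIndependent.pair_iff] at hi
  have h3 : (1 : K) • p + (-c - c') • q = 0 := by
    rw [one_smul, sub_smul, neg_smul, hc', h1]
    abel
  exact one_ne_zero (hi _ _ h3).1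

lemma pair_swap (hi : LinearIndependent K ![p, q]) : LinearIndependent K ![q, p] := by
  rw [LinearIndependent.pair_iff] at hi ⊢
  intro s t h
  have := hi t s (by rw [add_comm]; exact h)
  exact ⟨this.2, this.1⟩

lemma q_notMem (hi : LinearIndependent K ![p, q]) (hL : L = Submodule.span K {p, q})
    (hM : M ⊓ L ≤ Submodule.span K {p}) : q ∉ M ⊔ Submodule.span K {p} :=
  p_notMem (pair_swap hi) (by rw [hL, Set.pair_comm]) hM

lemma span_ne (hi : LinearIndependent K ![p, q]) : Submodule.span K {p} ≠ Submodule.span K {q} := by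
  intro h
  have h1 : p ∈ Submodule.span K {q} := h ▸ Submodule.mem_span_singleton_self p
  obtain ⟨c, hc⟩ := Submodule.mem_span_singleton.1 h1
  rw [LinearIndependent.pair_iff] at hi
  have h3 : (1 : K) • p + (-c) • q = 0 := by
    rw [one_smul, neg_smul, hc]; abel
  exact one_ne_zero (hi _ _ h3).1

lemma span_ne_bot (hi : LinearIndependent K ![p, q]) : Submodule.span K {p} ≠ ⊥ := by
  intro h
  rw [Submodule.span_singleton_eq_bot] at h
  rw [LinearIndependent.pair_iff] at hi
  have h3 : (1 : K) • p + (0 : K) • q = 0 := by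
    rw [h]; simp
  exact one_ne_zero (hi _ _ h3).1

open Classical in
/-- the monomials which are restrictions of forms vanishing on the union of the `M a` -/
lemma RM_mono {ι : Type} (M : ι → Submodule K (Fin n → K)) (hi : LinearIndependent K ![p, q])
    (hL : L = Submodule.span K {p, q}) : ∀ A : Finset ι,
    (∀ a ∈ A, M a ⊓ L = ⊥ ∨ M a ⊓ L = Submodule.span K {p} ∨ M a ⊓ L = Submodule.span K {q}) →
    ∀ i j : ℕ, (A.filter fun a => M a ⊓ L = Submodule.span K {q}).card ≤ i →
    (A.filter fun a => M a ⊓ L = Submodule.span K {p}).card ≤ j → A.card ≤ i + j →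
    X 0 ^ i * X 1 ^ j ∈ RM p q {x | ∃ a ∈ A, x ∈ M a} (i + j) := by
  intro A
  induction A using Finset.induction_on with
  | empty =>
    intro _ i j _ _ _
    have h0 : X 0 ∈ RM p q ((⊥ : Submodule K (Fin n → K)) : Set (Fin n → K)) 1 := by
      apply RM_X0
      exact p_notMem hi hL (by simp)
    have h1 : X 1 ∈ RM p q ((⊥ : Submodule K (Fin n → K)) : Set (Fin n → K)) 1 := by
      apply RM_X1
      exact q_notMem hi hL (by simp)
    obtain ⟨G, ⟨-, hG⟩, hG'⟩ := h0
    obtain ⟨H, ⟨-, hH⟩, hH'⟩ := h1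
    refine ⟨G ^ i * H ^ j, ⟨?_, ?_⟩, ?_⟩
    · intro x hx
      simp at hx
    · have e1 := hG.pow i
      have e2 := hH.pow j
      rw [one_mul] at e1 e2
      exact e1.mul e2
    · show rho p q (G ^ i * H ^ j) = _
      rw [map_mul, map_pow, map_pow]
      have e1 : rho p q G = X 0 := hG'
      have e2 : rho p q H = X 1 := hH'
      rw [e1, e2]
  | insert a A ha ih =>
    intro hA i j hq hp hc
    have ih := ih (fun b hb => hA b (Finset.mem_insert_of_mem hb))
    have hset : {x | ∃ b ∈ insert a A, x ∈ M b} = (M a : Set (Fin n → K)) ∪ {x | ∃ b ∈ A, x ∈ M b} := by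
      ext x
      simp only [Finset.mem_insert, Set.mem_ofPred_eq, Set.mem_union, SetLike.mem_coe]
      constructor
      · rintro ⟨b, rfl | hb, hx⟩
        · exact Or.inl hx
        · exact Or.inr ⟨b, hb, hx⟩
      · rintro (hx | ⟨b, hb, hx⟩)
        · exact ⟨a, Or.inl rfl, hx⟩
        · exact ⟨b, Or.inr hb, hx⟩
    rw [hset]
    rw [Finset.card_insert_of_notMem ha] at hc
    have hdis : (A.filter fun a => M a ⊓ L = Submodule.span K {q}).card +
        (A.filter fun a => M a ⊓ L = Submodule.span K {p}).card ≤ A.card := by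
      rw [← Finset.card_union_of_disjoint]
      · exact Finset.card_le_card (Finset.union_subset (Finset.filter_subset _ _) (Finset.filter_subset _ _))
      · rw [Finset.disjoint_filter]
        intro b _ h1 h2
        exact span_ne hi (h2.symm.trans h1)
    have key0 : ∀ i', i = i' + 1 → (X 0 ∈ RM p q (M a : Set (Fin n → K)) 1) →
        (A.filter fun a => M a ⊓ L = Submodule.span K {q}).card ≤ i' →
        (A.filter fun a => M a ⊓ L = Submodule.span K {p}).card ≤ j →
        X 0 ^ i * X 1 ^ j ∈ RM p q ((M a : Set (Fin n → K)) ∪ {x | ∃ b ∈ A, x ∈ M b}) (i + j) := by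
      intro i' hi' hX h1 h2
      refine RM_congr (RM_mul hX (ih i' j h1 h2 (by omega))) rfl (by omega) ?_
      rw [hi']; ring
    have key1 : ∀ j', j = j' + 1 → (X 1 ∈ RM p q (M a : Set (Fin n → K)) 1) →
        (A.filter fun a => M a ⊓ L = Submodule.span K {q}).card ≤ i →
        (A.filter fun a => M a ⊓ L = Submodule.span K {p}).card ≤ j' →
        X 0 ^ i * X 1 ^ j ∈ RM p q ((M a : Set (Fin n → K)) ∪ {x | ∃ b ∈ A, x ∈ M b}) (i + j) := by
      intro j' hj' hX h1 h2
      refine RM_congr (RM_mul hX (ih i j' h1 h2 (by omega))) rfl (by omega) ?_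
      rw [hj']; ring
    rcases hA a (Finset.mem_insert_self a A) with h | h | h
    · have hq' : (A.filter fun a => M a ⊓ L = Submodule.span K {q}).card ≤ i := by
        refine le_trans (Finset.card_le_card ?_) hq
        exact Finset.filter_subset_filter _ (Finset.subset_insert _ _)
      have hp' : (A.filter fun a => M a ⊓ L = Submodule.span K {p}).card ≤ j := by
        refine le_trans (Finset.card_le_card ?_) hp
        exact Finset.filter_subset_filter _ (Finset.subset_insert _ _)
      by_cases h1 : (A.filter fun a => M a ⊓ L = Submodule.span K {q}).card < i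
      · refine key0 (i - 1) (by omega) ?_ (by omega) hp'
        exact RM_X0 (p_notMem hi hL (by rw [h]; exact bot_le))
      · refine key1 (j - 1) (by omega) ?_ hq' (by omega)
        exact RM_X1 (q_notMem hi hL (by rw [h]; exact bot_le))
    · have hp1 : ((insert a A).filter fun a => M a ⊓ L = Submodule.span K {p}).card =
          (A.filter fun a => M a ⊓ L = Submodule.span K {p}).card + 1 := by
        rw [Finset.filter_insert, if_pos h, Finset.card_insert_of_notMem]
        exact fun h' => ha (Finset.mem_filter.1 h').1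
      have hq' : (A.filter fun a => M a ⊓ L = Submodule.span K {q}).card ≤ i := by
        refine le_trans (Finset.card_le_card ?_) hq
        exact Finset.filter_subset_filter _ (Finset.subset_insert _ _)
      refine key1 (j - 1) (by omega) ?_ hq' (by omega)
      exact RM_X1 (q_notMem hi hL h.le)
    · have hq1 : ((insert a A).filter fun a => M a ⊓ L = Submodule.span K {q}).card =
          (A.filter fun a => M a ⊓ L = Submodule.span K {q}).card + 1 := by
        rw [Finset.filter_insert, if_pos h, Finset.card_insert_of_notMem]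
        exact fun h' => ha (Finset.mem_filter.1 h').1
      have hp' : (A.filter fun a => M a ⊓ L = Submodule.span K {p}).card ≤ j := by
        refine le_trans (Finset.card_le_card ?_) hp
        exact Finset.filter_subset_filter _ (Finset.subset_insert _ _)
      refine key0 (i - 1) (by omega) ?_ (by omega) hp'
      exact RM_X0 (p_notMem hi hL h.le)

/-- value at the first basis vector -/
lemma eval_10 {g : MvPolynomial (Fin 2) K} {t : ℕ} (hg : g.IsHomogeneous t) {d : Fin 2 →₀ ℕ}
    (hd : d ∈ g.support) (h1 : d 1 = 0) : eval ![1, 0] g ≠ 0 := by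
  have hdeg : ∀ e ∈ g.support, e 0 + e 1 = t := by
    intro e he
    have := hg.degree_eq_sum_deg_support he
    rw [this, Finset.sum_subset (Finset.subset_univ e.support)]
    · rw [Fin.sum_univ_two]
    · intro i _ hi
      simpa using hi
  have h2 : eval ![1, 0] g = coeff d g := by
    rw [MvPolynomial.eval_eq']
    rw [Finset.sum_eq_single d]
    · rw [Fin.prod_univ_two, h1]
      simp
    · intro e he hne
      rw [Fin.prod_univ_two]
      have h3 : e 1 ≠ 0 := by
        intro h3
        apply hne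
        have a1 := hdeg e he
        have a2 := hdeg d hd
        ext i
        fin_cases i
        · simp only [Fin.zero_eta]
          omega
        · simp only [Fin.mk_one]
          omega
      simp [h3]
    · intro h
      exact absurd hd h
  rw [h2]
  exact mem_support_iff.1 hd

lemma eval_01 {g : MvPolynomial (Fin 2) K} {t : ℕ} (hg : g.IsHomogeneous t) {d : Fin 2 →₀ ℕ}
    (hd : d ∈ g.support) (h1 : d 0 = 0) : eval ![0, 1] g ≠ 0 := by
  have hdeg : ∀ e ∈ g.support, e 0 + e 1 = t := by
    intro e he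
    have := hg.degree_eq_sum_deg_support he
    rw [this, Finset.sum_subset (Finset.subset_univ e.support)]
    · rw [Fin.sum_univ_two]
    · intro i _ hi
      simpa using hi
  have h2 : eval ![0, 1] g = coeff d g := by
    rw [MvPolynomial.eval_eq']
    rw [Finset.sum_eq_single d]
    · rw [Fin.prod_univ_two, h1]
      simp
    · intro e he hne
      rw [Fin.prod_univ_two]
      have h3 : e 0 ≠ 0 := by
        intro h3
        apply hne
        have a1 := hdeg e he
        have a2 := hdeg d hd
        ext i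
        fin_cases i
        · simp only [Fin.zero_eta]
          omega
        · simp only [Fin.mk_one]
          omega
      simp [h3]
    · intro h
      exact absurd hd h
  rw [h2]
  exact mem_support_iff.1 hd

lemma RM_anti {Y Z : Set (Fin n → K)} (h : Y ⊆ Z) (t : ℕ) : RM p q Z t ≤ RM p q Y t := by
  rintro g ⟨G, ⟨hG1, hG2⟩, rfl⟩
  exact ⟨G, ⟨vI_mono h hG1, hG2⟩, rfl⟩

/-- from monomials to the ideal -/
lemma fin_step [Infinite K] (hL : L = Submodule.span K {p, q}) {Y : Set (Fin n → K)} {t : ℕ}
    {G0 : MvPolynomial (Fin n) K} (hG0 : G0 ∈ Ht Y t)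
    (h : ∀ G ∈ Ht Y t, ∀ d ∈ (rho p q G).support, X 0 ^ d 0 * X 1 ^ d 1 ∈
      RM p q (Y ∪ (Λ : Set (Fin n → K))) t ⊔ Submodule.span K {rho p q G0}) :
    ∀ G ∈ Ht Y t, G ∈ Ht (Y ∪ (L : Set (Fin n → K))) t ⊔ Ht (Λ : Set (Fin n → K)) t ⊔ Submodule.span K {G0} := by
  intro G hG
  have h1 : rho p q G ∈ RM p q (Y ∪ (Λ : Set (Fin n → K))) t ⊔ Submodule.span K {rho p q G0} := by
    rw [(rho p q G).as_sum]
    refine Submodule.sum_mem _ fun d hd => ?_
    have h2 : monomial d (coeff d (rho p q G)) = coeff d (rho p q G) • (X 0 ^ d 0 * X 1 ^ d 1) := by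
      rw [monomial_eq, MvPolynomial.smul_eq_C_mul]
      congr 1
      rw [Finsupp.prod_fintype _ _ (fun i => pow_zero _), Fin.prod_univ_two]
    rw [h2]
    exact Submodule.smul_mem _ _ (h G hG d hd)
  obtain ⟨g1, hg1, g2, hg2, h3⟩ := Submodule.mem_sup.1 h1
  obtain ⟨G1, ⟨hG1, hG1'⟩, rfl⟩ := hg1
  obtain ⟨c, rfl⟩ := Submodule.mem_span_singleton.1 hg2
  have h4 : G - G1 - c • G0 ∈ Ht (Y ∪ (L : Set (Fin n → K))) t := by
    have e1 : G - G1 - c • G0 ∈ Ht Y t := by
      refine sub_mem (sub_mem hG ⟨vI_mono Set.subset_union_left hG1, hG1'⟩) (Submodule.smul_mem _ _ hG0)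
    refine ⟨?_, e1.2⟩
    have e2 : G - G1 - c • G0 ∈ vI (L : Set (Fin n → K)) := by
      rw [vI_span p q hL, map_sub, map_sub, map_smul]
      have : rho p q G = rho p q G1 + c • rho p q G0 := h3.symm
      rw [this]
      abel
    intro x hx
    rcases hx with hx | hx
    · exact e1.1 x hx
    · exact e2 x hx
  have h5 : G = (G - G1 - c • G0) + G1 + c • G0 := by abel
  rw [h5]
  refine Submodule.add_mem_sup (Submodule.add_mem_sup h4 ?_) (Submodule.smul_mem _ _ (Submodule.mem_span_singleton_self _))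
  exact ⟨vI_mono Set.subset_union_right hG1, hG1'⟩

lemma fr1 (G0 : MvPolynomial (Fin n) K) : Module.finrank K (Submodule.span K {G0}) ≤ 1 := by
  classical
  have := finrank_span_finset_le_card (R := K) ({G0} : Finset (MvPolynomial (Fin n) K))
  rw [Finset.coe_singleton, Finset.card_singleton] at this
  exact this

lemma smul_mem_union {ι : Type} {A : Finset ι} {M : ι → Submodule K (Fin n → K)} :
    ∀ x ∈ {x | ∃ a ∈ A, x ∈ M a}, ∀ c : K, c • x ∈ {x | ∃ a ∈ A, x ∈ M a} := by
  rintro x ⟨a, ha, hx⟩ c
  exact ⟨a, ha, Submodule.smul_mem _ _ hx⟩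

/-- the inequality for the Hilbert functions -/
lemma fin_hf [Infinite K] {Y : Set (Fin n → K)} (hY : ∀ x ∈ Y, ∀ c : K, c • x ∈ Y) {t c : ℕ}
    {G0 : MvPolynomial (Fin n) K} (hc : Module.finrank K (Submodule.span K {G0}) ≤ c)
    (h : ∀ G ∈ Ht Y t, G ∈ Ht (Y ∪ (L : Set (Fin n → K))) t ⊔ Ht (Λ : Set (Fin n → K)) t ⊔ Submodule.span K {G0}) :
    hf (vI (Y ∪ (L : Set (Fin n → K))) ⊔ vI (Λ : Set (Fin n → K))) t ≤ hf (vI Y ⊔ vI (Λ : Set (Fin n → K))) t + c := by
  refine hf_le (Submodule.span K {G0}) hc fun G hG1 hG2 => ?_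
  have h1 := sup_Ht hY (fun x hx c => Submodule.smul_mem Λ c hx) hG1 hG2
  have hle1 : Ht (Y ∪ (L : Set (Fin n → K))) t ≤
      (vI (Y ∪ (L : Set (Fin n → K))) ⊔ vI (Λ : Set (Fin n → K))).restrictScalars K ⊓ homogeneousSubmodule (Fin n) K t :=
    fun F hF => ⟨(le_sup_left : vI (Y ∪ (L : Set (Fin n → K))) ≤ _) hF.1, hF.2⟩
  have hle2 : Ht (Λ : Set (Fin n → K)) t ≤
      (vI (Y ∪ (L : Set (Fin n → K))) ⊔ vI (Λ : Set (Fin n → K))).restrictScalars K ⊓ homogeneousSubmodule (Fin n) K t :=
    fun F hF => ⟨(le_sup_right : vI (Λ : Set (Fin n → K)) ≤ _) hF.1, hF.2⟩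
  have hle3 : Ht Y t ≤
      ((vI (Y ∪ (L : Set (Fin n → K))) ⊔ vI (Λ : Set (Fin n → K))).restrictScalars K ⊓ homogeneousSubmodule (Fin n) K t) ⊔
        Submodule.span K {G0} := by
    intro F hF
    have h2 : Ht (Y ∪ (L : Set (Fin n → K))) t ⊔ Ht (Λ : Set (Fin n → K)) t ⊔ Submodule.span K {G0} ≤
      ((vI (Y ∪ (L : Set (Fin n → K))) ⊔ vI (Λ : Set (Fin n → K))).restrictScalars K ⊓ homogeneousSubmodule (Fin n) K t) ⊔
        Submodule.span K {G0} :=
      sup_le (sup_le (hle1.trans le_sup_left) (hle2.trans le_sup_left)) le_sup_right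
    exact h2 (h F hF)
  exact (sup_le hle3 (hle2.trans le_sup_left)) h1

open Classical in
theorem t_STEP : S_STEP.{u} := by
  intro K _ _ n ι A M p q L Λ hi hL hA hup huq hLΛ
  set Y : Set (Fin n → K) := {x | ∃ a ∈ A, x ∈ M a} with hYdef
  have hY : ∀ x ∈ Y, ∀ c : K, c • x ∈ Y := smul_mem_union
  set ep := (A.filter fun a => M a ⊓ L = Submodule.span K {p}).card with hep
  set eq := (A.filter fun a => M a ⊓ L = Submodule.span K {q}).card with heq
  have hep1 : ep ≤ 1 := Finset.card_le_one.2 fun a ha b hb =>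
    hup a (Finset.mem_filter.1 ha).1 b (Finset.mem_filter.1 hb).1 (Finset.mem_filter.1 ha).2 (Finset.mem_filter.1 hb).2
  have heq1 : eq ≤ 1 := Finset.card_le_one.2 fun a ha b hb =>
    huq a (Finset.mem_filter.1 ha).1 b (Finset.mem_filter.1 hb).1 (Finset.mem_filter.1 ha).2 (Finset.mem_filter.1 hb).2
  have hdis : eq + ep ≤ A.card := by
    rw [heq, hep, ← Finset.card_union_of_disjoint]
    · exact Finset.card_le_card (Finset.union_subset (Finset.filter_subset _ _) (Finset.filter_subset _ _))
    · rw [Finset.disjoint_filter]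
      intro b _ h1 h2
      exact span_ne hi (h2.symm.trans h1)
  have hmono := RM_mono M hi hL A hA
  -- the exponents
  have hexp : ∀ t, ∀ G ∈ Ht Y t, ∀ d ∈ (rho p q G).support, eq ≤ d 0 ∧ ep ≤ d 1 ∧ d 0 + d 1 = t := by
    intro t G hG d hd
    have hhom := rho_hom p q hG.2
    have hdeg : d 0 + d 1 = t := by
      have := hhom.degree_eq_sum_deg_support hd
      rw [this, Finset.sum_subset (Finset.subset_univ d.support)]
      · rw [Fin.sum_univ_two]
      · intro i _ hi
        simpa using hi
    refine ⟨?_, ?_, hdeg⟩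
    · by_contra hlt
      have h1 : d 0 = 0 := by omega
      have h2 : 0 < eq := by omega
      obtain ⟨a, ha⟩ := Finset.card_pos.1 h2
      have ha' := Finset.mem_filter.1 ha
      have hq : q ∈ M a := by
        have : q ∈ M a ⊓ L := by rw [ha'.2]; exact Submodule.mem_span_singleton_self q
        exact this.1
      apply eval_01 hhom hd h1
      rw [eval_rho]
      have : ((![0, 1] : Fin 2 → K) 0 • p + (![0, 1] : Fin 2 → K) 1 • q) = q := by simp
      rw [this]
      exact hG.1 q ⟨a, ha'.1, hq⟩
    · by_contra hlt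
      have h1 : d 1 = 0 := by omega
      have h2 : 0 < ep := by omega
      obtain ⟨a, ha⟩ := Finset.card_pos.1 h2
      have ha' := Finset.mem_filter.1 ha
      have hp : p ∈ M a := by
        have : p ∈ M a ⊓ L := by rw [ha'.2]; exact Submodule.mem_span_singleton_self p
        exact this.1
      apply eval_10 hhom hd h1
      rw [eval_rho]
      have : ((![1, 0] : Fin 2 → K) 0 • p + (![1, 0] : Fin 2 → K) 1 • q) = p := by simp
      rw [this]
      exact hG.1 p ⟨a, ha'.1, hp⟩
  constructor
  · -- at most one more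
    filter_upwards [eventually_ge_atTop (A.card + 3)] with t ht
    obtain ⟨v, hvL, hvΛ⟩ := SetLike.not_le_iff_exists.1 hLΛ
    obtain ⟨f, hf1, hf2⟩ := exists_fun hvΛ
    have huw : f p ≠ 0 ∨ f q ≠ 0 := by
      by_contra hcon
      rw [not_or, not_not, not_not] at hcon
      rw [hL, Submodule.mem_span_pair] at hvL
      obtain ⟨a, b, rfl⟩ := hvL
      rw [map_add, map_smul, map_smul, hcon.1, hcon.2, smul_zero, smul_zero, add_zero] at hf1
      exact zero_ne_one hf1
    have hlam : C (f p) * X 0 + C (f q) * X 1 ∈ RM p q (Λ : Set (Fin n → K)) 1 := RM_lf f hf2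
    have hN : ∀ i j, eq ≤ i → ep ≤ j → i + j + 1 = t →
        X 0 ^ i * X 1 ^ j * (C (f p) * X 0 + C (f q) * X 1) ∈ RM p q (Y ∪ (Λ : Set (Fin n → K))) t := by
      intro i j h1 h2 h3
      exact RM_congr (RM_mul (hmono i j h1 h2 (by omega)) hlam) rfl (by omega) rfl
    by_cases hw : f q = 0
    · have hu : f p ≠ 0 := huw.resolve_right (not_not.2 hw)
      obtain ⟨G0, hG0, hG0'⟩ := hmono eq (t - eq) le_rfl (by omega) (by omega)
      have hG0t : G0 ∈ Ht Y t := by
        have : eq + (t - eq) = t := by omega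
        rwa [this] at hG0
      refine fin_hf (G0 := G0) hY (fr1 G0) (fin_step hL hG0t ?_)
      intro G hG d hd
      obtain ⟨h1, h2, h3⟩ := hexp t G hG d hd
      have hG0'' : rho p q G0 = X 0 ^ eq * X 1 ^ (t - eq) := hG0'
      rw [hG0'']
      rcases Nat.eq_or_lt_of_le h1 with h4 | h4
      · refine Submodule.mem_sup_right ?_
        have : d 1 = t - eq := by omega
        rw [← h4, this]
        exact Submodule.mem_span_singleton_self _
      · refine Submodule.mem_sup_left ?_
        have h5 := hN (d 0 - 1) (d 1) (by omega) h2 (by omega)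
        rw [hw, C_0, zero_mul, add_zero] at h5
        have h6 := Submodule.smul_mem _ (f p)⁻¹ h5
        refine RM_congr h6 rfl rfl ?_
        rw [MvPolynomial.smul_eq_C_mul]
        have h7 : (C (f p)⁻¹ : MvPolynomial (Fin 2) K) * C (f p) = 1 := by
          rw [← map_mul, inv_mul_cancel₀ hu, map_one]
        obtain ⟨k, hk⟩ : ∃ k, d 0 = k + 1 := ⟨d 0 - 1, by omega⟩
        rw [hk, Nat.add_sub_cancel]
        linear_combination (X 0 ^ (k + 1) * X 1 ^ d 1) * h7
    · obtain ⟨G0, hG0, hG0'⟩ := hmono (t - ep) ep (by omega) le_rfl (by omega)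
      have hG0t : G0 ∈ Ht Y t := by
        have : t - ep + ep = t := by omega
        rwa [this] at hG0
      refine fin_hf (G0 := G0) hY (fr1 G0) (fin_step hL hG0t ?_)
      have hG0'' : rho p q G0 = X 0 ^ (t - ep) * X 1 ^ ep := hG0'
      have hind : ∀ k i, i + (ep + k) = t → eq ≤ i → X 0 ^ i * X 1 ^ (ep + k) ∈
          RM p q (Y ∪ (Λ : Set (Fin n → K))) t ⊔ Submodule.span K {rho p q G0} := by
        intro k
        induction k with
        | zero =>
          intro i h1 h2
          refine Submodule.mem_sup_right ?_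
          rw [hG0'']
          have : i = t - ep := by omega
          rw [this, add_zero]
          exact Submodule.mem_span_singleton_self _
        | succ k ih =>
          intro i h1 h2
          have h3 := ih (i + 1) (by omega) (by omega)
          have h4 := hN i (ep + k) h2 (by omega) (by omega)
          have h5 := Submodule.add_mem _ (Submodule.smul_mem _ (f q)⁻¹ (Submodule.mem_sup_left
            (T := Submodule.span K {rho p q G0}) h4)) (Submodule.smul_mem _ (-((f q)⁻¹ * f p)) h3)
          convert h5 using 1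
          rw [MvPolynomial.smul_eq_C_mul, MvPolynomial.smul_eq_C_mul, map_neg, map_mul]
          have h7 : (C (f q)⁻¹ : MvPolynomial (Fin 2) K) * C (f q) = 1 := by
            rw [← map_mul, inv_mul_cancel₀ hw, map_one]
          rw [← add_assoc ep k 1]
          linear_combination (-(X 0 ^ i * X 1 ^ (ep + k + 1))) * h7
      intro G hG d hd
      obtain ⟨h1, h2, h3⟩ := hexp t G hG d hd
      have h4 := hind (d 1 - ep) (d 0) (by omega) h1
      have : ep + (d 1 - ep) = d 1 := by omega
      rwa [this] at h4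
  · intro hgood
    filter_upwards [eventually_ge_atTop (A.card + 3)] with t ht
    have hall : ∀ i j, eq ≤ i → ep ≤ j → i + j = t → X 0 ^ i * X 1 ^ j ∈ RM p q (Y ∪ (Λ : Set (Fin n → K))) t := by
      intro i j h1 h2 h3
      rcases hgood with h | ⟨a, ha, hap, hpΛ, hn⟩ | ⟨a, ha, haq, hqΛ, hn⟩
      · have h' : Λ ⊓ L = ⊥ := by rw [inf_comm]; exact h
        by_cases h4 : eq < i
        · have h5 := RM_mul (hmono (i - 1) j (by omega) h2 (by omega))
            (RM_X0 (Y := Λ) (p_notMem hi hL (by rw [h']; exact bot_le)))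
          refine RM_congr h5 rfl (by omega) ?_
          obtain ⟨k, hk⟩ : ∃ k, i = k + 1 := ⟨i - 1, by omega⟩
          rw [hk, Nat.add_sub_cancel]
          ring
        · have h5 := RM_mul (hmono i (j - 1) h1 (by omega) (by omega))
            (RM_X1 (Y := Λ) (q_notMem hi hL (by rw [h']; exact bot_le)))
          refine RM_congr h5 rfl (by omega) ?_
          obtain ⟨k, hk⟩ : ∃ k, j = k + 1 := ⟨j - 1, by omega⟩
          rw [hk, Nat.add_sub_cancel]
          ring
      · have hqn : q ∉ (Λ ⊔ M a) ⊔ Submodule.span K {p} := by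
          intro hq
          apply hn
          have h5 : (Λ ⊔ M a) ⊔ Submodule.span K {p} = Λ ⊔ M a := by
            rw [sup_eq_left, Submodule.span_singleton_le_iff_mem]
            exact Submodule.mem_sup_left hpΛ
          rw [h5] at hq
          rw [hL, Submodule.span_le]
          rintro x (rfl | rfl)
          · exact Submodule.mem_sup_left hpΛ
          · exact hq
        have h5 := RM_X1 (p := p) (q := q) (Y := Λ ⊔ M a) hqn
        have hj : 1 ≤ j := by
          refine le_trans ?_ h2
          exact Finset.card_pos.2 ⟨a, Finset.mem_filter.2 ⟨ha, hap⟩⟩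
        have h6 := RM_mono M hi hL (A.erase a) (fun b hb => hA b (Finset.mem_of_mem_erase hb)) i (j - 1)
          (le_trans (Finset.card_le_card (Finset.filter_subset_filter _ (Finset.erase_subset _ _))) h1)
          (by
            have : ((A.erase a).filter fun a => M a ⊓ L = Submodule.span K {p}) = ∅ := by
              rw [Finset.filter_eq_empty_iff]
              intro b hb h7
              exact Finset.ne_of_mem_erase hb (hup b (Finset.mem_of_mem_erase hb) a ha h7 hap)
            rw [this]; simp)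
          (by rw [Finset.card_erase_of_mem ha]; omega)
        have h7 := RM_mul h6 h5
        have h8 : Y ∪ (Λ : Set (Fin n → K)) ⊆ {x | ∃ b ∈ A.erase a, x ∈ M b} ∪ ((Λ ⊔ M a : Submodule K (Fin n → K)) : Set (Fin n → K)) := by
          rintro x (⟨b, hb, hx⟩ | hx)
          · by_cases hba : b = a
            · subst hba
              exact Or.inr (Submodule.mem_sup_right hx)
            · exact Or.inl ⟨b, Finset.mem_erase.2 ⟨hba, hb⟩, hx⟩
          · exact Or.inr (Submodule.mem_sup_left hx)
        refine RM_congr (RM_anti h8 _ h7) rfl (by omega) ?_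
        obtain ⟨k, hk⟩ : ∃ k, j = k + 1 := ⟨j - 1, by omega⟩
        rw [hk, Nat.add_sub_cancel]
        ring
      · have hpn : p ∉ (Λ ⊔ M a) ⊔ Submodule.span K {q} := by
          intro hp
          apply hn
          have h5 : (Λ ⊔ M a) ⊔ Submodule.span K {q} = Λ ⊔ M a := by
            rw [sup_eq_left, Submodule.span_singleton_le_iff_mem]
            exact Submodule.mem_sup_left hqΛ
          rw [h5] at hp
          rw [hL, Submodule.span_le]
          rintro x (rfl | rfl)
          · exact hp
          · exact Submodule.mem_sup_left hqΛ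
        have h5 := RM_X0 (p := p) (q := q) (Y := Λ ⊔ M a) hpn
        have hj : 1 ≤ i := by
          refine le_trans ?_ h1
          exact Finset.card_pos.2 ⟨a, Finset.mem_filter.2 ⟨ha, haq⟩⟩
        have h6 := RM_mono M hi hL (A.erase a) (fun b hb => hA b (Finset.mem_of_mem_erase hb)) (i - 1) j
          (by
            have : ((A.erase a).filter fun a => M a ⊓ L = Submodule.span K {q}) = ∅ := by
              rw [Finset.filter_eq_empty_iff]
              intro b hb h7
              exact Finset.ne_of_mem_erase hb (huq b (Finset.mem_of_mem_erase hb) a ha h7 haq)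
            rw [this]; simp)
          (le_trans (Finset.card_le_card (Finset.filter_subset_filter _ (Finset.erase_subset _ _))) h2)
          (by rw [Finset.card_erase_of_mem ha]; omega)
        have h7 := RM_mul h6 h5
        have h8 : Y ∪ (Λ : Set (Fin n → K)) ⊆ {x | ∃ b ∈ A.erase a, x ∈ M b} ∪ ((Λ ⊔ M a : Submodule K (Fin n → K)) : Set (Fin n → K)) := by
          rintro x (⟨b, hb, hx⟩ | hx)
          · by_cases hba : b = a
            · subst hba
              exact Or.inr (Submodule.mem_sup_right hx)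
            · exact Or.inl ⟨b, Finset.mem_erase.2 ⟨hba, hb⟩, hx⟩
          · exact Or.inr (Submodule.mem_sup_left hx)
        refine RM_congr (RM_anti h8 _ h7) rfl (by omega) ?_
        obtain ⟨k, hk⟩ : ∃ k, i = k + 1 := ⟨i - 1, by omega⟩
        rw [hk, Nat.add_sub_cancel]
        ring
    have hres := fin_hf (Y := Y) (L := L) (Λ := Λ) (t := t) (c := 0) (G0 := (0 : MvPolynomial (Fin n) K)) hY
      (by rw [Submodule.span_zero_singleton, finrank_bot])
      (fin_step hL (Submodule.zero_mem _) (fun G hG d hd => by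
        obtain ⟨h1, h2, h3⟩ := hexp t G hG d hd
        exact Submodule.mem_sup_left (hall _ _ h1 h2 h3)))
    simpa using hres

end step

end Pool.Agent.E8helper64.GC
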