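import Pool.Agent.E8helper40.GC.Gen
import Pool.Agent.E8helper40.GC.Chain
import Pool.Agent.E8helper71.GC.FV
import Pool.Agent.E8helper71.GC.Graph
import Pool.Agent.E8helper86.GC.Low1
import Pool.Agent.E8helper52.GC.Low2
import Pool.Agent.E8helper87.GC.ALG
import Pool.Agent.E8helper64.GC.Step

/-!
# Ideals of secant varieties of graph curves: assembly
-/

set_option autoImplicit false

namespace Pool.Agent.E8helper64.GC

open MvPolynomial Filter

universe u

section

variable {K : Type u} [Field K]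

theorem vI_zcl {n : ℕ} (Y : Set (Fin n → K)) : vI (zcl Y) = vI Y := by
  apply le_antisymm
  · intro p hp x hx
    exact hp x fun q hq => hq x hx
  · intro p hp x hx
    exact hx p hp

theorem curve_eq (h : S_GRAPH.{u}) : curve K Gt labt = Xt K := by
  ext x
  simp only [curve, Xt, Set.mem_ofPred_eq, h.2.2.2 K]

theorem li (s : Fin 11) : LinearIndependent K ![pv K s, qv K s] := by
  rw [LinearIndependent.pair_iff]
  intro a b hab
  have h := fun i => congrFun hab i
  fin_cases s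
  · have h1 := h 6; have h2 := h 7; simp [pv, qv, E] at h1 h2; exact ⟨h1, h2⟩
  · have h1 := h 8; have h2 := h 9; simp [pv, qv, E] at h1 h2; exact ⟨h1, h2⟩
  · have h1 := h 6; have h2 := h 0; simp [pv, qv, E] at h1 h2; exact ⟨h1, h2⟩
  · have h1 := h 0; have h2 := h 3; simp [pv, qv, E] at h1 h2; exact ⟨h1, h2⟩
  · have h1 := h 8; have h2 := h 3; simp [pv, qv, E] at h1 h2; exact ⟨h1, h2⟩
  · have h1 := h 7; have h2 := h 1; simp [pv, qv, E] at h1 h2; exact ⟨h1, h2⟩
  · have h1 := h 1; have h2 := h 4; simp [pv, qv, E] at h1 h2; exact ⟨h1, h2⟩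
  · have h1 := h 9; have h2 := h 4; simp [pv, qv, E] at h1 h2; exact ⟨h1, h2⟩
  · have h1 := h 6; have h2 := h 2; simp [pv, qv, E] at h1 h2; exact ⟨h1, h2⟩
  · have h1 := h 2; have h2 := h 5; simp [pv, qv, E] at h1 h2; exact ⟨h1, h2⟩
  · have h1 := h 8; have h2 := h 5; simp [pv, qv, E] at h1 h2; exact ⟨h1, h2⟩

theorem pv_mem (s : Fin 11) : pv K s ∈ Lt K s := by
  refine ⟨fun i hi => ?_, fun h => ?_, fun h => ?_⟩
  · fin_cases s <;> fin_cases i <;> simp [pv, E, al] at hi ⊢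
  · subst h; simp [pv, E]
  · subst h; simp [pv, E]

theorem qv_mem (s : Fin 11) : qv K s ∈ Lt K s := by
  refine ⟨fun i hi => ?_, fun h => ?_, fun h => ?_⟩
  · fin_cases s <;> fin_cases i <;> simp [qv, E, al] at hi ⊢
  · subst h; simp [qv, E]
  · subst h; simp [qv, E]

/-- The form vanishes on the secant variety. -/
theorem Ft_mem [Infinite K] (hF : S_FV.{u}) (hC : S_CHAIN.{u}) (hI : S_IND.{u}) (hL : S_LOW1.{u}) :
    Ft K ∈ vI (Sec (Xt K) 3) := by
  rintro x ⟨Λ, hr, ⟨ℓ, hℓ, hev⟩, hx⟩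
  by_cases hs : ∃ s, Lt K s ≤ Λ
  · exfalso
    obtain ⟨s, hs⟩ := hs
    have h1 := hL K 10 (Xt K) Λ (pv K s) (qv K s) (li s)
      (fun a b => ⟨s, Submodule.add_mem _ (Submodule.smul_mem _ _ (pv_mem s))
        (Submodule.smul_mem _ _ (qv_mem s))⟩) (hs (pv_mem s)) (hs (qv_mem s))
    obtain ⟨t, ht, ht'⟩ := (hev.and (eventually_ge_atTop ℓ)).exists
    have := h1 t
    omega
  · push Not at hs
    obtain ⟨t, ht, ht'⟩ := (hev.and (hC K Λ hs)).exists
    obtain ⟨S, hS, hΛS⟩ := hI K Λ hr hs (by omega)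
    exact hF K S hS x (hΛS hx)

end

/-- The ideal of the secant variety is not generated by products of linear forms. -/
theorem main (hI : S_IND.{u}) (K : Type u) [Field K] [Infinite K] :
    ¬ GenByProds (vI (Sig (curve K Gt labt) 3)) := by
  have hC : S_CHAIN.{u} := E8helper40.GC.t_CHAIN t_STEP
  have hG : S_GEN.{u} := E8helper40.GC.t_GEN hC E8helper52.GC.t_LOW2
  rintro ⟨T, hT, hTI⟩
  rw [curve_eq E8helper71.GC.t_GRAPH, Sig, vI_zcl] at hTI
  have h1 : Ft K ∈ vI (Sec (Xt K) 3) := Ft_mem E8helper71.GC.t_FV hC hI E8helper86.GC.t_LOW1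
  rw [hTI] at h1
  refine E8helper87.GC.t_ALG K T hT (fun p hp i x hx => hG K i p ?_ x hx) h1
  rw [hTI]
  exact Ideal.subset_span hp

end Pool.Agent.E8helper64.GC
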