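import Pool.Agent.E8helper64.GC.Stm

/-!
Project GC: tools for adding a line (restriction to a line, homogeneous parts, Hilbert functions).
-/

set_option autoImplicit false

namespace Pool.Agent.E8helper64.GC

open MvPolynomial Filter

universe u

section tools

variable {K : Type u} [Field K] {n : ℕ}

lemma mem_vI {Y : Set (Fin n → K)} {G : MvPolynomial (Fin n) K} : G ∈ vI Y ↔ ∀ x ∈ Y, eval x G = 0 := Iff.rfl

lemma vI_mono {Y Z : Set (Fin n → K)} (h : Y ⊆ Z) : vI Z ≤ vI Y := fun _ hG x hx => hG x (h hx)

/-- the linear form of a functional -/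
noncomputable def lf (f : (Fin n → K) →ₗ[K] K) : MvPolynomial (Fin n) K := ∑ i, C (f (Pi.single i 1)) * X i

lemma eval_lf (f : (Fin n → K) →ₗ[K] K) (x : Fin n → K) : eval x (lf f) = f x := by
  unfold lf
  rw [LinearMap.pi_apply_eq_sum_univ f x, map_sum]
  refine Finset.sum_congr rfl fun i _ => ?_
  have h : (Pi.single i (1 : K) : Fin n → K) = fun j => if i = j then 1 else 0 := by
    ext j
    rw [Pi.single_apply]
    simp only [eq_comm]
  rw [map_mul, eval_C, eval_X, h, smul_eq_mul, mul_comm]

lemma lf_hom (f : (Fin n → K) →ₗ[K] K) : (lf f).IsHomogeneous 1 :=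
  IsHomogeneous.sum _ _ _ fun i _ => isHomogeneous_C_mul_X _ i

/-- the restriction to the span of `p` and `q` -/
noncomputable def rho (p q : Fin n → K) : MvPolynomial (Fin n) K →ₐ[K] MvPolynomial (Fin 2) K :=
  aeval fun i => C (p i) * X 0 + C (q i) * X 1

lemma eval_rho (p q : Fin n → K) (a : Fin 2 → K) (G : MvPolynomial (Fin n) K) :
    eval a (rho p q G) = eval (a 0 • p + a 1 • q) G := by
  have h : (eval a).comp (rho p q).toRingHom = eval (a 0 • p + a 1 • q) := by
    apply MvPolynomial.ringHom_ext
    · intro r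
      simp [rho]
    · intro i
      simp [rho]
      ring
  exact DFunLike.congr_fun h G

lemma rho_hom (p q : Fin n → K) {G : MvPolynomial (Fin n) K} {t : ℕ} (hG : G.IsHomogeneous t) :
    (rho p q G).IsHomogeneous t := by
  have h := hG.aeval (S := K) (n := 1) (fun i => C (p i) * X (0 : Fin 2) + C (q i) * X 1) (fun i =>
    (isHomogeneous_C_mul_X _ _).add (isHomogeneous_C_mul_X _ _))
  rw [one_mul] at h
  exact h

lemma rho_lf (p q : Fin n → K) (f : (Fin n → K) →ₗ[K] K) :
    rho p q (lf f) = C (f p) * X 0 + C (f q) * X 1 := by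
  have key : ∀ x : Fin n → K, ∑ i, f (Pi.single i 1) * x i = f x := by
    intro x
    have := eval_lf f x
    unfold lf at this
    simpa using this
  unfold lf rho
  rw [map_sum]
  simp only [map_mul, aeval_X, algHom_C, algebraMap_eq]
  rw [← key p, ← key q, map_sum, map_sum, Finset.sum_mul, Finset.sum_mul, ← Finset.sum_add_distrib]
  refine Finset.sum_congr rfl fun i _ => ?_
  rw [map_mul, map_mul]
  ring

lemma vI_span [Infinite K] (p q : Fin n → K) {L : Submodule K (Fin n → K)} (hL : L = Submodule.span K {p, q})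
    (G : MvPolynomial (Fin n) K) : G ∈ vI (L : Set (Fin n → K)) ↔ rho p q G = 0 := by
  constructor
  · intro h
    apply MvPolynomial.funext
    intro a
    rw [eval_rho, map_zero]
    apply h
    rw [hL, SetLike.mem_coe, Submodule.mem_span_pair]
    exact ⟨a 0, a 1, rfl⟩
  · intro h x hx
    rw [hL, SetLike.mem_coe, Submodule.mem_span_pair] at hx
    obtain ⟨a, b, rfl⟩ := hx
    have := eval_rho p q ![a, b] G
    rw [h, map_zero] at this
    simpa using this.symm

/-- homogeneous components of the elements of the ideal of a cone -/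
lemma comp_mem [Infinite K] {Y : Set (Fin n → K)} (hY : ∀ x ∈ Y, ∀ c : K, c • x ∈ Y) {G : MvPolynomial (Fin n) K}
    (hG : G ∈ vI Y) (t : ℕ) : homogeneousComponent t G ∈ vI Y := by
  intro x hx
  -- the polynomial `c ↦ eval (c x) G`
  have h1 : ∀ (s : ℕ) (H : MvPolynomial (Fin n) K) (c : K), H.IsHomogeneous s →
      eval (c • x) H = c ^ s * eval x H := by
    intro s H c hH
    rw [MvPolynomial.eval_eq', MvPolynomial.eval_eq', Finset.mul_sum]
    refine Finset.sum_congr rfl fun d hd => ?_
    have h2 : ∑ i, d i = s := by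
      have := hH.degree_eq_sum_deg_support hd
      rw [this]
      rw [Finset.sum_subset (Finset.subset_univ d.support)]
      intro i _ hi
      simpa using hi
    have h3 : ∏ i, (c • x) i ^ d i = c ^ s * ∏ i, x i ^ d i := by
      simp only [Pi.smul_apply, smul_eq_mul, mul_pow, Finset.prod_mul_distrib]
      rw [Finset.prod_pow_eq_pow_sum, h2]
    rw [h3]
    ring
  set P : Polynomial K := ∑ s ∈ Finset.range (G.totalDegree + 1),
    Polynomial.C (eval x (homogeneousComponent s G)) * Polynomial.X ^ s with hP
  have hev : ∀ c : K, P.eval c = 0 := by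
    intro c
    have h2 : eval (c • x) G = 0 := hG _ (hY x hx c)
    rw [hP, Polynomial.eval_finsetSum]
    rw [← h2]
    conv_rhs => rw [← sum_homogeneousComponent G, map_sum]
    refine Finset.sum_congr rfl fun s _ => ?_
    rw [h1 s _ c (homogeneousComponent_isHomogeneous s G)]
    simp only [Polynomial.eval_mul, Polynomial.eval_C, Polynomial.eval_pow, Polynomial.eval_X]
    ring
  have hP0 : P = 0 := Polynomial.funext fun c => by rw [hev c, Polynomial.eval_zero]
  by_cases ht : t ∈ Finset.range (G.totalDegree + 1)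
  · have h3 : P.coeff t = eval x (homogeneousComponent t G) := by
      rw [hP, Polynomial.finsetSum_coeff]
      simp only [Polynomial.coeff_C_mul_X_pow]
      rw [Finset.sum_ite_eq, if_pos ht]
    rw [← h3, hP0, Polynomial.coeff_zero]
  · rw [homogeneousComponent_eq_zero, map_zero]
    rw [Finset.mem_range] at ht
    omega

/-- the part of degree `t` of the ideal of `Y` -/
noncomputable def Ht (Y : Set (Fin n → K)) (t : ℕ) : Submodule K (MvPolynomial (Fin n) K) :=
  (vI Y).restrictScalars K ⊓ homogeneousSubmodule (Fin n) K t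

lemma mem_Ht {Y : Set (Fin n → K)} {t : ℕ} {G : MvPolynomial (Fin n) K} :
    G ∈ Ht Y t ↔ G ∈ vI Y ∧ G.IsHomogeneous t := Iff.rfl

lemma sup_Ht [Infinite K] {Y Z : Set (Fin n → K)} (hY : ∀ x ∈ Y, ∀ c : K, c • x ∈ Y)
    (hZ : ∀ x ∈ Z, ∀ c : K, c • x ∈ Z) {G : MvPolynomial (Fin n) K} {t : ℕ}
    (h : G ∈ vI Y ⊔ vI Z) (hG : G.IsHomogeneous t) : G ∈ Ht Y t ⊔ Ht Z t := by
  obtain ⟨A, hA, B, hB, rfl⟩ := Submodule.mem_sup.1 h
  have h1 : A + B = homogeneousComponent t A + homogeneousComponent t B := by
    rw [← map_add]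
    exact (homogeneousComponent_eq_self hG).symm
  rw [h1]
  exact Submodule.add_mem_sup ⟨comp_mem hY hA t, homogeneousComponent_isHomogeneous t A⟩
    ⟨comp_mem hZ hB t, homogeneousComponent_isHomogeneous t B⟩

/-- comparison of Hilbert functions -/
lemma hf_le {J J' : Ideal (MvPolynomial (Fin n) K)} {t c : ℕ} (W : Submodule K (MvPolynomial (Fin n) K))
    [Module.Finite K W] (hW : Module.finrank K W ≤ c)
    (h : ∀ G ∈ J', G.IsHomogeneous t → G ∈ (J.restrictScalars K ⊓ homogeneousSubmodule (Fin n) K t) ⊔ W) :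
    hf J t ≤ hf J' t + c := by
  have hfin : Module.Finite K (homogeneousSubmodule (Fin n) K t) :=
    Module.Finite.iff_fg.2 (homogeneousSubmodule_fg _ _ t)
  unfold hf
  set H := homogeneousSubmodule (Fin n) K t with hH
  set A := (J.restrictScalars K).comap H.subtype with hA
  set A' := (J'.restrictScalars K).comap H.subtype with hA'
  have e1 := Submodule.finrank_quotient_add_finrank A
  have e2 := Submodule.finrank_quotient_add_finrank A'
  have e3 : Module.finrank K A = Module.finrank K (H ⊓ J.restrictScalars K : Submodule K _) := by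
    rw [← Submodule.map_comap_subtype, Submodule.finrank_map_subtype_eq]
  have e4 : Module.finrank K A' = Module.finrank K (H ⊓ J'.restrictScalars K : Submodule K _) := by
    rw [← Submodule.map_comap_subtype, Submodule.finrank_map_subtype_eq]
  have hfA : Module.Finite K (H ⊓ J.restrictScalars K : Submodule K _) :=
    Submodule.finiteDimensional_of_le (S₂ := H) inf_le_left
  have h1 : (H ⊓ J'.restrictScalars K : Submodule K _) ≤ (H ⊓ J.restrictScalars K) ⊔ W := by
    intro G hG
    have := h G hG.2 hG.1
    rwa [inf_comm] at this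
  have e5 := Submodule.finrank_mono h1
  have e6 := Submodule.finrank_add_le_finrank_add_finrank (H ⊓ J.restrictScalars K) W
  omega

end tools

end Pool.Agent.E8helper64.GC
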