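import Pool.Agent.E8helper64.GC.Def

/-!
# Ideals of secant varieties of graph curves: the example and the statements of the pieces

The graph is the theta graph with three paths of length `4`: vertices `0`, `1` of degree `3` and
`2 + 3 i`, `3 + 3 i`, `4 + 3 i` on the path `i = 0, 1, 2` from `0` to `1`.
The coordinates: `x_i` for the edge `{2+3i, 3+3i}`, `x_(3+i)` for the edge `{3+3i, 4+3i}`, `x_6`, `x_7` at
the vertex `0` and `x_8`, `x_9` at the vertex `1`.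
-/

set_option autoImplicit false

namespace Pool.Agent.E8helper64.GC

open MvPolynomial Filter

universe u

/-- the edges -/
def EL : List (Fin 11 × Fin 11) :=
  [(0, 2), (2, 3), (3, 4), (4, 1), (0, 5), (5, 6), (6, 7), (7, 1), (0, 8), (8, 9), (9, 10), (10, 1)]

/-- The theta graph with three paths of length `4`. -/
def Gt : SimpleGraph (Fin 11) where
  Adj u v := (u, v) ∈ EL ∨ (v, u) ∈ EL
  symm := ⟨fun u v h => h.symm⟩
  loopless := ⟨by decide⟩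

/-- The labelling. -/
def labt (e : Sym2 (Fin 11)) : Lb 10 :=
  if e = s(0, 2) then .one 6 else if e = s(0, 5) then .one 7 else if e = s(0, 8) then .dif 6 7 else
  if e = s(1, 4) then .one 8 else if e = s(1, 7) then .one 9 else if e = s(1, 10) then .dif 8 9 else
  if e = s(2, 3) then .one 0 else if e = s(5, 6) then .one 1 else if e = s(8, 9) then .one 2 else
  if e = s(3, 4) then .one 3 else if e = s(6, 7) then .one 4 else .one 5

/-- the indices that occur at a vertex -/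
def al : Fin 11 → List (Fin 10) :=
  ![[6, 7], [8, 9], [6, 0], [0, 3], [8, 3], [7, 1], [1, 4], [9, 4], [6, 7, 2], [2, 5], [8, 9, 5]]

/-- the lines, explicitly -/
def Lt (K : Type u) [Field K] (s : Fin 11) : Submodule K (Fin 10 → K) where
  carrier := {x | (∀ i, i ∉ al s → x i = 0) ∧ (s = 8 → x 6 = x 7) ∧ (s = 10 → x 8 = x 9)}
  zero_mem' := ⟨fun _ _ => rfl, fun _ => rfl, fun _ => rfl⟩
  add_mem' := by
    rintro x y ⟨h1, h2, h3⟩ ⟨h4, h5, h6⟩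
    refine ⟨fun i hi => ?_, fun h => ?_, fun h => ?_⟩
    · rw [Pi.add_apply, h1 i hi, h4 i hi, add_zero]
    · rw [Pi.add_apply, Pi.add_apply, h2 h, h5 h]
    · rw [Pi.add_apply, Pi.add_apply, h3 h, h6 h]
  smul_mem' := by
    rintro c x ⟨h1, h2, h3⟩
    refine ⟨fun i hi => ?_, fun h => ?_, fun h => ?_⟩
    · rw [Pi.smul_apply, h1 i hi, smul_zero]
    · rw [Pi.smul_apply, Pi.smul_apply, h2 h]
    · rw [Pi.smul_apply, Pi.smul_apply, h3 h]

/-- the curve, explicitly -/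
def Xt (K : Type u) [Field K] : Set (Fin 10 → K) := {x | ∃ s, x ∈ Lt K s}

/-- the coordinate vectors -/
def E (K : Type u) [Field K] (i : Fin 10) : Fin 10 → K := Pi.single i 1

/-- first spanning vector of a line -/
def pv (K : Type u) [Field K] : Fin 11 → Fin 10 → K :=
  ![E K 6, E K 8, E K 6, E K 0, E K 8, E K 7, E K 1, E K 9, E K 6 + E K 7, E K 2, E K 8 + E K 9]

/-- second spanning vector of a line -/
def qv (K : Type u) [Field K] : Fin 11 → Fin 10 → K :=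
  ![E K 7, E K 9, E K 0, E K 3, E K 3, E K 1, E K 4, E K 4, E K 2, E K 5, E K 5]

/-- the form of degree `8` -/
noncomputable def Ft (K : Type u) [Field K] : MvPolynomial (Fin 10) K :=
  (X 6 * X 9 - X 7 * X 8) * (X 0 * X 1 * X 2 * X 3 * X 4 * X 5)

/-- three subspaces of the secant variety -/
def Dt (K : Type u) [Field K] (i : Fin 3) : Set (Fin 10 → K) :=
  {x | if i = 0 then x 7 = 0 ∧ x 9 = 0 else if i = 1 then x 6 = 0 ∧ x 8 = 0 else x 6 = x 7 ∧ x 8 = x 9}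

/-- GRAPH -/
def S_GRAPH : Prop := GraphOK Gt ∧ Labelling Gt labt ∧ Gt.edgeSet.ncard = 12 ∧
  ∀ (K : Type u) [Field K] (v : Fin 11), line K Gt labt v = Lt K v

/-- FV: the form vanishes on the span of any four lines -/
def S_FV : Prop := ∀ (K : Type u) [Field K] (S : Finset (Fin 11)), S.card ≤ 4 → ∀ x ∈ ⨆ s ∈ S, Lt K s,
  eval x (Ft K) = 0

/-- ALG: products of linear forms which vanish on the three subspaces do not generate the form -/
def S_ALG : Prop := ∀ (K : Type u) [Field K] [Infinite K] (T : Set (MvPolynomial (Fin 10) K)),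
  (∀ p ∈ T, ProdLin p) → (∀ p ∈ T, ∀ i, ∀ x ∈ Dt K i, eval x p = 0) → Ft K ∉ Ideal.span T

/-- STEP: adding the line spanned by `p` and `q` to the union of the `M a`, `a ∈ A` -/
def S_STEP : Prop := ∀ (K : Type u) [Field K] [Infinite K] (n : ℕ) (ι : Type) (A : Finset ι)
  (M : ι → Submodule K (Fin n → K)) (p q : Fin n → K) (L Λ : Submodule K (Fin n → K)),
  LinearIndependent K ![p, q] → L = Submodule.span K {p, q} →
  (∀ a ∈ A, M a ⊓ L = ⊥ ∨ M a ⊓ L = Submodule.span K {p} ∨ M a ⊓ L = Submodule.span K {q}) →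
  (∀ a ∈ A, ∀ b ∈ A, M a ⊓ L = Submodule.span K {p} → M b ⊓ L = Submodule.span K {p} → a = b) →
  (∀ a ∈ A, ∀ b ∈ A, M a ⊓ L = Submodule.span K {q} → M b ⊓ L = Submodule.span K {q} → a = b) →
  ¬ L ≤ Λ →
  (∀ᶠ t in atTop, hf (vI ({x | ∃ a ∈ A, x ∈ M a} ∪ (L : Set (Fin n → K))) ⊔ vI (Λ : Set (Fin n → K))) t ≤
    hf (vI {x | ∃ a ∈ A, x ∈ M a} ⊔ vI (Λ : Set (Fin n → K))) t + 1) ∧
  ((L ⊓ Λ = ⊥ ∨ (∃ a ∈ A, M a ⊓ L = Submodule.span K {p} ∧ p ∈ Λ ∧ ¬ L ≤ Λ ⊔ M a) ∨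
      (∃ a ∈ A, M a ⊓ L = Submodule.span K {q} ∧ q ∈ Λ ∧ ¬ L ≤ Λ ⊔ M a)) →
    ∀ᶠ t in atTop, hf (vI ({x | ∃ a ∈ A, x ∈ M a} ∪ (L : Set (Fin n → K))) ⊔ vI (Λ : Set (Fin n → K))) t ≤
      hf (vI {x | ∃ a ∈ A, x ∈ M a} ⊔ vI (Λ : Set (Fin n → K))) t)

section

variable {K : Type u} [Field K]

/-- the condition for the line `s` to count, lines of the vertices next to a vertex of degree `3` -/
def U1 (Λ : Submodule K (Fin 10 → K)) (s c : Fin 11) (i : Fin 10) : Prop :=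
  ∃ q ∈ Λ, q ∈ Lt K s ⊔ Lt K c ∧ q i ≠ 0

/-- the condition for the middle line of a path to count -/
def U2 (Λ : Submodule K (Fin 10 → K)) (r s c : Fin 11) (i j : Fin 10) : Prop :=
  (∃ z ∈ Λ, z ∈ Lt K s ∧ z i ≠ 0 ∧ z j ≠ 0) ∨
  (E K i ∈ Λ ∧ ∃ q ∈ Λ, q ∈ Lt K r ⊔ Lt K s ∧ q j ≠ 0) ∨
  (E K j ∈ Λ ∧ ∃ q ∈ Λ, q ∈ Lt K c ⊔ Lt K s ∧ q i ≠ 0)

/-- the condition for the line `s` to count -/
def Ux (Λ : Submodule K (Fin 10 → K)) : Fin 11 → Prop :=
  ![True, True, U1 Λ 2 0 0, U2 Λ 2 3 4 0 3, U1 Λ 4 1 3, U1 Λ 5 0 1, U2 Λ 5 6 7 1 4, U1 Λ 7 1 4,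
    U1 Λ 8 0 2, U2 Λ 8 9 10 2 5, U1 Λ 10 1 5]

/-- the line `s` counts -/
def Us (Λ : Submodule K (Fin 10 → K)) (s : Fin 11) : Prop := Λ ⊓ Lt K s ≠ ⊥ ∧ Ux Λ s

end

/-- CHAIN -/
def S_CHAIN : Prop := ∀ (K : Type u) [Field K] [Infinite K] (Λ : Submodule K (Fin 10 → K)),
  (∀ s, ¬ Lt K s ≤ Λ) →
  ∀ᶠ t in atTop, hf (vI (Xt K) ⊔ vI (Λ : Set (Fin 10 → K))) t ≤ {s | Us Λ s}.ncard

/-- IND -/
def S_IND : Prop := ∀ (K : Type u) [Field K] (Λ : Submodule K (Fin 10 → K)), Module.finrank K Λ = 4 →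
  (∀ s, ¬ Lt K s ≤ Λ) → 4 ≤ {s | Us Λ s}.ncard → ∃ S : Finset (Fin 11), S.card ≤ 4 ∧ Λ ≤ ⨆ s ∈ S, Lt K s

/-- LOW1: if a line is contained in `Λ` then the intersection is not zero-dimensional -/
def S_LOW1 : Prop := ∀ (K : Type u) [Field K] [Infinite K] (n : ℕ) (X : Set (Fin n → K))
  (Λ : Submodule K (Fin n → K)) (p q : Fin n → K), LinearIndependent K ![p, q] →
  (∀ a b : K, a • p + b • q ∈ X) → p ∈ Λ → q ∈ Λ →
  ∀ t, t + 1 ≤ hf (vI X ⊔ vI (Λ : Set (Fin n → K))) t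

/-- LOW2: points of the intersection -/
def S_LOW2 : Prop := ∀ (K : Type u) [Field K] [Infinite K] (n m : ℕ) (X : Set (Fin n → K))
  (Λ : Submodule K (Fin n → K)) (Q : Fin m → Fin n → K), (∀ i, Q i ∈ X) → (∀ i, Q i ∈ Λ) → (∀ i, Q i ≠ 0) →
  (∀ i j, i ≠ j → LinearIndependent K ![Q i, Q j]) →
  ∀ᶠ t in atTop, m ≤ hf (vI X ⊔ vI (Λ : Set (Fin n → K))) t

/-- GEN -/
def S_GEN : Prop := ∀ (K : Type u) [Field K] [Infinite K] (i : Fin 3) (p : MvPolynomial (Fin 10) K),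
  p ∈ vI (Sec (Xt K) 3) → ∀ x ∈ Dt K i, eval x p = 0

end Pool.Agent.E8helper64.GC
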